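import Pool.Agent.Q287.Reveal

/-!
# Counting connected restrictions of binary matroids

`N_k(M, e) ≤ (2 ^ L) ^ (k - 1)` where `L` is the cocycle-basis invariant of the binary matroid `M`.
-/

set_option linter.all false

namespace Pool.Agent.Results.MP_0dc42e_co.CountingBound

open Set Module Submodule Pool.Agent.Q287.Reveal

universe u

/-- `M` is binary: it is represented by a family of vectors over `GF(2)`. -/
def IsBinary {α : Type u} (M : Matroid α) : Prop :=
  ∃ (n : ℕ) (v : α → (Fin n → ZMod 2)), ∀ I ⊆ M.E, M.Indep I ↔ LinearIndepOn (ZMod 2) v I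

open Classical in
/-- The characteristic vector of a set. -/
noncomputable def chi {α : Type u} (K : Set α) : α → ZMod 2 := fun a => if a ∈ K then 1 else 0

/-- The cocycle space: the span over `GF(2)` of the characteristic vectors of the cocircuits, i.e.
the set of symmetric differences of cocircuits. -/
noncomputable def cocycleSpace {α : Type u} (M : Matroid α) : Submodule (ZMod 2) (α → ZMod 2) :=
  span (ZMod 2) {x | ∃ K, M.IsCocircuit K ∧ x = chi K}

/-- The minimum over all bases of the cocycle space of the largest size of a member. -/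
noncomputable def lam {α : Type u} (M : Matroid α) : ℕ :=
  sInf {m : ℕ | ∃ (ι : Type u) (B : Basis ι (ZMod 2) (cocycleSpace M)),
    ∀ i, (Function.support (B i : α → ZMod 2)).ncard ≤ m}

/-- Every two elements of the matroid lie in a common circuit. -/
def IsConnected {α : Type u} (M : Matroid α) : Prop :=
  ∀ x ∈ M.E, ∀ y ∈ M.E, x ≠ y → ∃ C, M.IsCircuit C ∧ x ∈ C ∧ y ∈ C

/-- The number of connected restrictions of `M` of size `k` containing `e`. -/
noncomputable def N {α : Type u} (k : ℕ) (M : Matroid α) (e : α) : ℕ :=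
  {S : Set α | S ⊆ M.E ∧ e ∈ S ∧ S.ncard = k ∧ IsConnected (M.restrict S)}.ncard

section

variable {α : Type u} {M : Matroid α} {n : ℕ} {v : α → (Fin n → ZMod 2)}

theorem zmod2_ne_zero (c : ZMod 2) (h : c ≠ 0) : c = 1 := by
  revert c
  decide

/-- The vectors of a circuit sum to zero. -/
theorem circuit_sum (hv : ∀ I ⊆ M.E, M.Indep I ↔ LinearIndepOn (ZMod 2) v I) {C : Finset α}
    (hC : M.IsCircuit (C : Set α)) : ∑ c ∈ C, v c = 0 := by
  classical
  have hdep : ¬ LinearIndepOn (ZMod 2) v (C : Set α) := by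
    rw [← hv _ hC.subset_ground]
    exact hC.not_indep
  rw [linearIndepOn_finset_iff] at hdep
  push Not at hdep
  obtain ⟨g, hg, i, hi, hgi⟩ := hdep
  set D : Finset α := C.filter (fun a => g a ≠ 0) with hD
  have hsum : ∑ c ∈ D, v c = 0 := by
    rw [← hg, hD, Finset.sum_filter]
    apply Finset.sum_congr rfl
    intro a _
    by_cases h : g a = 0
    · simp [h]
    · simp [h, zmod2_ne_zero _ h]
  have hDdep : ¬ M.Indep (D : Set α) := by
    intro hind
    rw [hv _ (fun x hx => hC.subset_ground (Finset.filter_subset _ _ hx))] at hind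
    have := linearIndepOn_finset_iff.1 hind (fun _ => 1) (by simpa using hsum) i
      (by simp [hD, hi, hgi])
    exact one_ne_zero this
  have hDC : D = C := by
    by_contra hne
    have hss : (D : Set α) ⊂ (C : Set α) := by
      rw [Finset.coe_ssubset]
      exact lt_of_le_of_ne (Finset.filter_subset _ _) hne
    exact hDdep (hC.ssubset_indep hss)
  rw [← hDC]
  exact hsum

/-- A cocircuit is the complement of the kernel of a functional. -/
theorem cocircuit_functional (hv : ∀ I ⊆ M.E, M.Indep I ↔ LinearIndepOn (ZMod 2) v I)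
    {K : Set α} (hK : M.IsCocircuit K) :
    ∃ f : (Fin n → ZMod 2) →ₗ[ZMod 2] ZMod 2, ∀ e ∈ M.E, f (v e) = chi K e := by
  classical
  have hKE := hK.subset_ground
  rw [Matroid.isCocircuit_iff_minimal_compl_nonspanning] at hK
  have hns := hK.prop
  -- membership in the closure
  have hcl : ∀ X ⊆ M.E, ∀ e ∈ M.E, v e ∈ span (ZMod 2) (v '' X) → e ∈ M.closure X := by
    intro X hX e he hmem
    obtain ⟨I, hI⟩ := M.exists_isBasis X hX
    have hIi : LinearIndepOn (ZMod 2) v I := (hv I (hI.subset.trans hX)).1 hI.indep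
    have hspan : span (ZMod 2) (v '' I) = span (ZMod 2) (v '' X) := by
      apply le_antisymm (span_mono (image_mono hI.subset))
      rw [span_le]
      rintro _ ⟨x, hx, rfl⟩
      by_contra hnot
      have hins := (hv (insert x I) (insert_subset (hX hx) (hI.subset.trans hX))).2
        (hIi.insert hnot)
      have := hI.mem_of_insert_indep hx hins
      exact hnot (subset_span (mem_image_of_mem v this))
    rw [← hI.closure_eq_closure, hI.indep.mem_closure_iff']
    refine ⟨he, fun hins => ?_⟩
    by_contra heI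
    have := (hv (insert e I) (insert_subset he (hI.subset.trans hX))).1 hins
    rw [← hspan] at hmem
    exact this.notMem_span_of_insert heI hmem
  have hex : ∃ e₀ ∈ M.E, v e₀ ∉ span (ZMod 2) (v '' (M.E \ K)) := by
    by_contra hcon
    push Not at hcon
    apply hns
    rw [Matroid.spanning_iff_ground_subset_closure]
    intro e he
    exact hcl _ sdiff_subset e he (hcon e he)
  obtain ⟨e₀, he₀, hnot⟩ := hex
  obtain ⟨f, hf1, hf2⟩ := Submodule.exists_le_ker_of_notMem hnot
  -- the support of the functional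
  set K' : Set α := {e | e ∈ M.E ∧ f (v e) ≠ 0} with hK'
  have hsub : K' ⊆ K := by
    rintro e ⟨he, hfe⟩
    by_contra heK
    exact hfe (hf2 (subset_span (mem_image_of_mem v ⟨he, heK⟩)))
  have hns' : ¬ M.Spanning (M.E \ K') := by
    intro hsp
    -- a base inside `M.E \ K'` spans everything
    have hker : span (ZMod 2) (v '' (M.E \ K')) ≤ LinearMap.ker f := by
      rw [span_le]
      rintro _ ⟨x, ⟨hx1, hx2⟩, rfl⟩
      by_contra h0
      exact hx2 ⟨hx1, h0⟩
    obtain ⟨I, hI⟩ := M.exists_isBasis (M.E \ K') sdiff_subset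
    have hbase : M.IsBase I := by
      rw [Matroid.spanning_iff_closure_eq] at hsp
      rw [← hI.closure_eq_closure] at hsp
      exact hI.indep.isBase_of_ground_subset_closure hsp.ge
    have hIi : LinearIndepOn (ZMod 2) v I :=
      (hv I hbase.subset_ground).1 hbase.indep
    have hmem : v e₀ ∈ span (ZMod 2) (v '' I) := by
      by_contra hno
      have hins := (hv (insert e₀ I) (insert_subset he₀ hbase.subset_ground)).2
        (hIi.insert hno)
      have := hbase.mem_of_insert_indep hins
      exact hno (subset_span (mem_image_of_mem v this))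
    exact hf1 (hker (span_mono (image_mono hI.subset) hmem))
  have hKK : K' = K := by
    apply Subset.antisymm hsub
    exact hK.le_of_le hns' hsub
  refine ⟨f, fun e he => ?_⟩
  unfold chi
  by_cases heK : e ∈ K
  · rw [if_pos heK]
    rw [← hKK] at heK
    exact zmod2_ne_zero _ heK.2
  · rw [if_neg heK]
    by_contra h0
    exact heK (hsub ⟨he, h0⟩)

/-- Circuits are orthogonal to cocycles. -/
theorem orth (hv : ∀ I ⊆ M.E, M.Indep I ↔ LinearIndepOn (ZMod 2) v I) {C : Finset α}
    (hC : M.IsCircuit (C : Set α)) {x : α → ZMod 2} (hx : x ∈ cocycleSpace M) :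
    ∑ c ∈ C, x c = 0 := by
  induction hx using Submodule.span_induction with
  | mem x hx =>
    obtain ⟨K, hK, rfl⟩ := hx
    obtain ⟨f, hf⟩ := cocircuit_functional hv hK
    have : ∑ c ∈ C, chi K c = f (∑ c ∈ C, v c) := by
      rw [map_sum]
      apply Finset.sum_congr rfl
      intro c hc
      exact (hf c (hC.subset_ground hc)).symm
    rw [this, circuit_sum hv hC, map_zero]
  | zero => simp
  | add x y _ _ hx hy =>
    simp only [Pi.add_apply, Finset.sum_add_distrib, hx, hy, add_zero]
  | smul c x _ hx =>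
    simp only [Pi.smul_apply, smul_eq_mul, ← Finset.mul_sum, hx, mul_zero]

/-- A nonempty set orthogonal to all cocycles is dependent. -/
theorem dep_of_orth {X : Finset α} (hne : X.Nonempty)
    (h : ∀ x ∈ cocycleSpace M, ∑ c ∈ X, x c = 0) : ¬ M.Indep (X : Set α) := by
  classical
  intro hI
  obtain ⟨a, ha⟩ := hne
  obtain ⟨K, hK, hKX⟩ := hI.exists_isCocircuit_inter_eq_mem (Finset.mem_coe.2 ha)
  have h1 := h (chi K) (subset_span ⟨K, hK, rfl⟩)
  rw [Finset.sum_eq_single a] at h1
  · have haK : a ∈ K := by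
      have : a ∈ ({a} : Set α) := rfl
      rw [← hKX] at this
      exact this.1
    simp [chi, haK] at h1
  · intro c hc hca
    unfold chi
    rw [if_neg]
    intro hcK
    have : c ∈ K ∩ (X : Set α) := ⟨hcK, hc⟩
    rw [hKX] at this
    exact hca this
  · intro h2
    exact absurd ha h2

theorem cocycle_supp {x : α → ZMod 2} (hx : x ∈ cocycleSpace M) (a : α) (ha : a ∉ M.E) :
    x a = 0 := by
  classical
  induction hx using Submodule.span_induction with
  | mem x hx =>
    obtain ⟨K, hK, rfl⟩ := hx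
    unfold chi
    rw [if_neg (fun h => ha (hK.subset_ground h))]
  | zero => rfl
  | add x y _ _ hx hy => simp [hx, hy]
  | smul c x _ hx => simp [hx]

theorem exists_basis (M : Matroid α) (hfin : M.Finite) : ∃ (ι : Type u)
    (B : Basis ι (ZMod 2) (cocycleSpace M)),
    ∀ i, (Function.support (B i : α → ZMod 2)).ncard ≤ lam M := by
  have hne : {m : ℕ | ∃ (ι : Type u) (B : Basis ι (ZMod 2) (cocycleSpace M)),
      ∀ i, (Function.support (B i : α → ZMod 2)).ncard ≤ m}.Nonempty := by
    refine ⟨M.E.ncard, _, Basis.ofVectorSpace (ZMod 2) (cocycleSpace M), fun i => ?_⟩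
    apply Set.ncard_le_ncard _ M.ground_finite
    intro a ha
    by_contra haE
    exact ha (cocycle_supp (Subtype.mem _) a haE)
  exact Nat.sInf_mem hne

theorem rank_bound (hv : ∀ I ⊆ M.E, M.Indep I ↔ LinearIndepOn (ZMod 2) v I) [DecidableEq α]
    {ι : Type u} (b : ι → (α → ZMod 2)) (hb : ∀ i, b i ∈ cocycleSpace M) (S : Finset α)
    {C : Finset α} (hC : M.IsCircuit (C : Set α)) (hCS : C ⊆ S) (Q : Finset ι)
    (hQ : LinearIndepOn (ZMod 2) (fun i => res S (b i)) (Q : Set ι)) : Q.card ≤ S.card - 1 := by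
  classical
  -- restriction to coordinates in `S`
  let ρ : (α → ZMod 2) →ₗ[ZMod 2] (S → ZMod 2) := LinearMap.funLeft (ZMod 2) (ZMod 2) (fun s : S => (s : α))
  let ext : (S → ZMod 2) →ₗ[ZMod 2] (α → ZMod 2) :=
    { toFun := fun y a => if h : a ∈ S then y ⟨a, h⟩ else 0
      map_add' := by
        intro x y
        funext a
        by_cases h : a ∈ S <;> simp [h]
      map_smul' := by
        intro c x
        funext a
        by_cases h : a ∈ S <;> simp [h] }
  have hext : (fun i => res S (b i)) = ext ∘ (fun i => ρ (b i)) := by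
    funext i a
    simp only [res_apply, Function.comp]
    show _ = dite _ _ _
    by_cases h : a ∈ S <;> simp [h, ρ, LinearMap.funLeft]
  rw [hext] at hQ
  have h1 : LinearIndepOn (ZMod 2) (fun i => ρ (b i)) (Q : Set ι) := LinearIndepOn.of_comp ext hQ
  let φ : (S → ZMod 2) →ₗ[ZMod 2] ZMod 2 := ∑ s : S, if (s : α) ∈ C then LinearMap.proj s else 0
  have hφ : ∀ y, φ y = ∑ s : S, if (s : α) ∈ C then y s else 0 := by
    intro y
    simp only [φ, LinearMap.sum_apply]
    apply Finset.sum_congr rfl
    intro s _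
    by_cases h : (s : α) ∈ C <;> simp [h]
  have hφb : ∀ i, φ (ρ (b i)) = 0 := by
    intro i
    rw [hφ]
    have h2 : (∑ s : S, if (s : α) ∈ C then ρ (b i) s else 0) = ∑ c ∈ S, if c ∈ C then b i c else 0 :=
      Finset.sum_coe_sort S (fun c => if c ∈ C then b i c else 0)
    rw [h2, ← Finset.sum_filter, Finset.filter_mem_eq_inter, Finset.inter_eq_right.2 hCS]
    exact orth hv hC (hb i)
  obtain ⟨c0, hc0⟩ : C.Nonempty := by
    have := hC.nonempty
    exact Finset.coe_nonempty.1 this
  have hne : φ (Pi.single ⟨c0, hCS hc0⟩ 1) ≠ 0 := by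
    rw [hφ, Finset.sum_eq_single ⟨c0, hCS hc0⟩]
    · simp [hc0]
    · intro s _ hs
      simp [hs]
    · intro h
      exact absurd (Finset.mem_univ _) h
  have hrk := LinearMap.finrank_range_add_finrank_ker φ
  rw [Module.finrank_fintype_fun_eq_card, Fintype.card_coe] at hrk
  have hpos : 1 ≤ finrank (ZMod 2) (LinearMap.range φ) := by
    have hnt : Nontrivial (LinearMap.range φ) :=
      ⟨⟨⟨φ (Pi.single ⟨c0, hCS hc0⟩ 1), ⟨_, rfl⟩⟩, 0, fun h => hne (congrArg Subtype.val h)⟩⟩
    exact Module.finrank_pos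
  have h3 : LinearIndependent (ZMod 2)
      (fun i : Q => (⟨ρ (b i), hφb i⟩ : LinearMap.ker φ)) := by
    apply LinearIndependent.of_comp (LinearMap.ker φ).subtype
    exact h1
  have h4 := h3.fintype_card_le_finrank
  rw [Fintype.card_coe] at h4
  omega

theorem connected_step (hv : ∀ I ⊆ M.E, M.Indep I ↔ LinearIndepOn (ZMod 2) v I) [DecidableEq α]
    {ι : Type u} (B : Basis ι (ZMod 2) (cocycleSpace M)) (R : ι → Finset α)
    (hR : ∀ i a, (B i : α → ZMod 2) a ≠ 0 → a ∈ R i) (S T : Finset α) (hTS : T ⊆ S) {C : Finset α}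
    (hC : M.IsCircuit (C : Set α)) (hCS : C ⊆ S) {e s : α} (heT : e ∈ T) (heC : e ∈ C)
    (hsC : s ∈ C) (hsT : s ∉ T) (Q : Finset ι) (hQ : ∀ i ∈ Q, S ∩ R i ⊆ T)
    (hall : ∀ j, res T (B j : α → ZMod 2) ∈
      span (ZMod 2) ((fun i => res T (B i : α → ZMod 2)) '' (Q : Set ι))) : False := by
  classical
  set X : Finset α := C ∩ T with hX
  let ψ : (α → ZMod 2) →ₗ[ZMod 2] ZMod 2 := ∑ c ∈ X, LinearMap.proj c
  have hψ : ∀ x, ψ x = ∑ c ∈ X, x c := by
    intro x
    simp [ψ, LinearMap.sum_apply]
  have hres : ∀ x, ψ (res T x) = ψ x := by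
    intro x
    rw [hψ, hψ]
    apply Finset.sum_congr rfl
    intro c hc
    rw [res_apply, if_pos (Finset.mem_inter.1 hc).2]
  have hQ0 : ∀ i ∈ Q, ψ (res T (B i : α → ZMod 2)) = 0 := by
    intro i hi
    rw [hres, hψ]
    have h1 : ∑ c ∈ X, (B i : α → ZMod 2) c = ∑ c ∈ C, (B i : α → ZMod 2) c := by
      apply Finset.sum_subset Finset.inter_subset_left
      intro c hcC hcX
      by_contra h0
      have : c ∈ T := hQ i hi (Finset.mem_inter.2 ⟨hCS hcC, hR i c h0⟩)
      exact hcX (Finset.mem_inter.2 ⟨hcC, this⟩)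
    rw [h1]
    exact orth hv hC (Subtype.mem _)
  have hall0 : ∀ j, ψ (B j : α → ZMod 2) = 0 := by
    intro j
    rw [← hres]
    have hle : span (ZMod 2) ((fun i => res T (B i : α → ZMod 2)) '' (Q : Set ι)) ≤
        LinearMap.ker ψ := by
      rw [span_le]
      rintro _ ⟨i, hi, rfl⟩
      exact hQ0 i hi
    exact hle (hall j)
  have hzero : ψ ∘ₗ (cocycleSpace M).subtype = 0 := by
    apply B.ext
    intro j
    simpa using hall0 j
  have hdep : ¬ M.Indep (X : Set α) := by
    apply dep_of_orth ⟨e, Finset.mem_inter.2 ⟨heC, heT⟩⟩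
    intro x hx
    rw [← hψ]
    have := LinearMap.congr_fun hzero ⟨x, hx⟩
    simpa using this
  apply hdep
  apply hC.ssubset_indep
  rw [Finset.coe_ssubset]
  refine lt_of_le_of_ne Finset.inter_subset_left ?_
  intro h
  have h1 : s ∈ C ∩ T := by
    have h2 : X = C := h
    rw [hX] at h2
    rw [h2]
    exact hsC
  exact hsT (Finset.mem_inter.1 h1).2

/-- The counting bound. -/
theorem bound (M : Matroid α) (hfin : M.Finite) (hM : IsBinary M) (e : α) (he : e ∈ M.E) (k : ℕ)
    (hk : 1 ≤ k) : N k M e ≤ (2 ^ lam M) ^ (k - 1) := by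
  classical
  obtain ⟨n, v, hv⟩ := hM
  set E : Finset α := M.ground_finite.toFinset with hE
  have hEc : (E : Set α) = M.E := by simp [hE]
  set F : Finset (Finset α) :=
    E.powerset.filter (fun S => e ∈ S ∧ S.card = k ∧ IsConnected (M.restrict (S : Set α))) with hF
  have hN : N k M e = F.card := by
    rw [N, ← Set.ncard_coe_finset, ← Set.ncard_image_of_injective (F : Set (Finset α))
      Finset.coe_injective]
    congr 1
    ext S
    constructor
    · rintro ⟨h1, h2, h3, h4⟩
      have hSf : S.Finite := M.ground_finite.subset h1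
      refine ⟨hSf.toFinset, ?_, by simp⟩
      simp only [hF, Finset.coe_filter, Finset.mem_powerset, Set.mem_setOf_eq]
      refine ⟨?_, by simpa using h2, ?_, by simpa using h4⟩
      · rw [← Finset.coe_subset, hEc]
        simpa using h1
      · rw [← Set.ncard_eq_toFinset_card S hSf]
        exact h3
    · rintro ⟨S', hS', rfl⟩
      simp only [hF, Finset.coe_filter, Finset.mem_powerset, Set.mem_setOf_eq] at hS'
      obtain ⟨h1, h2, h3, h4⟩ := hS'
      refine ⟨?_, h2, ?_, h4⟩
      · show (S' : Set α) ⊆ M.E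
        rw [← hEc]
        exact_mod_cast h1
      · show ((S' : Set α)).ncard = k
        rw [Set.ncard_coe_finset]
        exact h3
  rw [hN]
  rcases Nat.lt_or_ge k 2 with hk2 | hk2
  · have hk1 : k = 1 := by omega
    subst hk1
    rw [Nat.sub_self, pow_zero]
    apply Finset.card_le_one.2
    have key : ∀ S ∈ F, S = {e} := by
      intro S hS
      obtain ⟨-, h2, h3, -⟩ := Finset.mem_filter.1 hS
      obtain ⟨a, ha⟩ := Finset.card_eq_one.1 h3
      rw [ha] at h2 ⊢
      rw [Finset.mem_singleton.1 h2]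
    intro S hS S' hS'
    rw [key S hS, key S' hS']
  · obtain ⟨ι, B, hB⟩ := exists_basis M hfin
    have hsf : ∀ i, (Function.support (B i : α → ZMod 2)).Finite := by
      intro i
      apply M.ground_finite.subset
      intro a ha
      by_contra haE
      exact ha (cocycle_supp (Subtype.mem _) a haE)
    set R : ι → Finset α := fun i => (hsf i).toFinset with hR
    have hRmem : ∀ i a, (B i : α → ZMod 2) a ≠ 0 → a ∈ R i := by
      intro i a h
      simpa [hR] using h
    have hRcard : ∀ i, (R i).card ≤ lam M := by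
      intro i
      have h1 := hB i
      rwa [Set.ncard_eq_toFinset_card _ (hsf i)] at h1
    -- circuits in a connected restriction
    have hcirc : ∀ S ∈ F, ∀ s ∈ S, s ≠ e → ∃ C : Finset α, M.IsCircuit (C : Set α) ∧ C ⊆ S ∧
        e ∈ C ∧ s ∈ C := by
      intro S hS s hs hse
      obtain ⟨h1, h2, h3, h4⟩ := Finset.mem_filter.1 hS
      have hSE : (S : Set α) ⊆ M.E := by
        rw [← hEc]
        exact_mod_cast Finset.mem_powerset.1 h1
      obtain ⟨C, hC, heC, hsC⟩ := h4 e h2 s hs (Ne.symm hse)
      rw [Matroid.restrict_isCircuit_iff hSE] at hC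
      have hCf : C.Finite := S.finite_toSet.subset hC.2
      refine ⟨hCf.toFinset, by simpa using hC.1, ?_, by simpa using heC, by simpa using hsC⟩
      rw [← Finset.coe_subset]
      simpa using hC.2
    apply count (fun i => (B i : α → ZMod 2)) R (lam M) hRcard (k - 1) (k - 1) ∅ {e} F
    · intro S hS
      rw [Finset.singleton_subset_iff]
      exact (Finset.mem_filter.1 hS).2.1
    · intro S _ i hi
      exact absurd hi (Finset.notMem_empty i)
    · intro S hS Q hQ
      obtain ⟨h1, h2, h3, h4⟩ := Finset.mem_filter.1 hS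
      obtain ⟨s, hs, hse⟩ : ∃ s ∈ S, s ≠ e := by
        have : 1 < S.card := by omega
        exact Finset.exists_mem_ne this e
      obtain ⟨C, hC, hCS, -, -⟩ := hcirc S hS s hs hse
      have := rank_bound hv (fun i => (B i : α → ZMod 2)) (fun i => Subtype.mem _) S hC hCS Q hQ
      omega
    · intro S hS T hTS heT Q hQ hall
      by_contra hne
      obtain ⟨s, hsS, hsT⟩ := Finset.exists_of_ssubset (lt_of_le_of_ne hTS hne)
      have heT' : e ∈ T := heT (Finset.mem_singleton_self e)
      have hse : s ≠ e := by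
        rintro rfl
        exact hsT heT'
      obtain ⟨C, hC, hCS, heC, hsC⟩ := hcirc S hS s hsS hse
      exact connected_step hv B R hRmem S T hTS hC hCS heT' heC hsC hsT Q hQ hall
    · simp
    · simp

end

/-- There is a function `C` (one can take `C L = 2 ^ L`) such that `N_k(M, e) ≤ C(Λ(M)) ^ k` for
every finite binary matroid `M`, every element `e` and every `k ≥ 1`; in fact
`N_k(M, e) ≤ (2 ^ Λ(M)) ^ (k - 1)`. -/
theorem result : ∃ C : ℕ → ℝ, (∀ L, 0 < C L) ∧ (∀ L, C L = 2 ^ L) ∧
    ∀ (α : Type u) (M : Matroid α), M.Finite → IsBinary M → ∀ e ∈ M.E, ∀ k : ℕ, 1 ≤ k →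
      (N k M e : ℝ) ≤ C (lam M) ^ (k - 1) ∧ (N k M e : ℝ) ≤ C (lam M) ^ k := by
  refine ⟨fun L => 2 ^ L, fun L => by positivity, fun L => rfl, ?_⟩
  intro α M hfin hM e he k hk
  have h1 := bound M hfin hM e he k hk
  have h2 : (N k M e : ℝ) ≤ ((2 : ℝ) ^ lam M) ^ (k - 1) := by exact_mod_cast h1
  refine ⟨h2, h2.trans ?_⟩
  apply pow_le_pow_right₀ _ (Nat.sub_le k 1)
  exact one_le_pow₀ (by norm_num)

end Pool.Agent.Results.MP_0dc42e_co.CountingBound
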